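import Pool.Agent.Work.MP_9e3593_pr.Final
import Pool.Agent.Work.MP_9e3593_pr_h49.An8

set_option autoImplicit false

namespace Pool.Agent.Results.MP_9e3593_pr.RecurrentNearOne

open MeasureTheory

/-- The number of children of a vertex of type `b`: two if `b` is `true`, otherwise five. -/
def kids (b : Bool) : ℕ := if b = true then 2 else 5

/-- The law of the type of a vertex: `true` with probability `p`. -/
noncomputable def typeLaw (p : ℝ) : Measure Bool :=
  ENNReal.ofReal p • Measure.dirac true + ENNReal.ofReal (1 - p) • Measure.dirac false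

/-- The law of the Galton-Watson tree: the types `e v` of the vertices are independent. The
vertices are lists of numbers, `[]` is the root and `i :: v`, `i < kids (e v)`, are the children
of `v` (the types of the lists which are not vertices of the tree play no role). -/
noncomputable def treeLaw (p : ℝ) : Measure (List ℕ → Bool) :=
  Measure.infinitePi fun _ => typeLaw p

/-- The law of a family `U v n` of independent uniform random variables in `[0, 1]`: the
variable `U v n` is used by the frog of the vertex `v` for its step `n`. -/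
noncomputable def stepLaw : Measure (List ℕ → ℕ → ℝ) :=
  Measure.infinitePi fun _ => Measure.infinitePi fun _ => volume.restrict (Set.Icc 0 1)

/-- A uniformly chosen neighbour of `x` (for `u` uniformly distributed): a child if `x` is the
root, otherwise the parent or a child. -/
noncomputable def move (e : List ℕ → Bool) (x : List ℕ) (u : ℝ) : List ℕ :=
  match x with
  | [] => [⌊u * kids (e [])⌋₊]
  | a :: y => match ⌊u * (kids (e (a :: y)) + 1 : ℕ)⌋₊ with
    | 0 => y
    | j + 1 => j :: a :: y

/-- The position after `n` steps of the walk of the frog which starts at `v`. -/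
noncomputable def frog (e : List ℕ → Bool) (U : List ℕ → ℕ → ℝ) (v : List ℕ) : ℕ → List ℕ
  | 0 => v
  | n + 1 => move e (frog e U v n) (U v n)

/-- The frog of `v` wakes up: it is the frog of the root, or `v` is visited by the walk of a frog
which wakes up. -/
inductive Wakes (e : List ℕ → Bool) (U : List ℕ → ℕ → ℝ) : List ℕ → Prop
  | root : Wakes e U []
  | step (v : List ℕ) (n : ℕ) : Wakes e U v → Wakes e U (frog e U v n)

section

open Pool.Agent.Work.MP_9e3593_pr Pool.Agent.Work.MP_9e3593_pr.Fr

theorem stepLaw_map :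
    stepLaw.map (fun (U : List ℕ → ℕ → ℝ) (v : List ℕ) (n : ℕ) => dis (U v n)) = QS := by
  have h1 : (fun (U : List ℕ → ℕ → ℝ) (v : List ℕ) (n : ℕ) => dis (U v n)) =
      fun (U : List ℕ → ℕ → ℝ) (v : List ℕ) => (fun (x : ℕ → ℝ) (n : ℕ) => dis (x n)) (U v) := rfl
  have h2 : Measurable (fun (x : ℕ → ℝ) (n : ℕ) => dis (x n)) :=
    measurable_pi_lambda _ fun n => measurable_dis.comp (measurable_pi_apply n)
  have h3 : (Measure.infinitePi fun _ : ℕ => uni).map (fun (x : ℕ → ℝ) (n : ℕ) => dis (x n)) =
      Measure.infinitePi fun _ : ℕ => nuA :=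
    Measure.infinitePi_map_pi (fun _ : ℕ => uni) (f := fun _ => dis) (fun _ => measurable_dis)
  rw [h1]
  have h4 := Measure.infinitePi_map_pi (fun _ : List ℕ => Measure.infinitePi fun _ : ℕ => uni)
    (f := fun _ (x : ℕ → ℝ) (n : ℕ) => dis (x n)) (fun _ => h2)
  change (Measure.infinitePi fun _ : List ℕ => Measure.infinitePi fun _ : ℕ => uni).map _ = _
  rw [h4, h3]
  rfl

theorem ae_lt_one : ∀ᵐ U ∂stepLaw, ∀ (v : List ℕ) (n : ℕ), U v n < 1 := by
  rw [ae_all_iff]
  intro v
  rw [ae_all_iff]
  intro n
  have hu : ∀ᵐ u ∂uni, u < 1 := by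
    unfold uni
    rw [ae_restrict_iff' measurableSet_Icc]
    have hne : ∀ᵐ u : ℝ ∂volume, u ≠ 1 := by
      rw [ae_iff]
      simp
    filter_upwards [hne] with u hu hmem
    exact lt_of_le_of_ne hmem.2 hu
  have h1 : (Measure.infinitePi fun _ : ℕ => uni).map (fun x => x n) = uni :=
    Measure.infinitePi_map_eval (fun _ : ℕ => uni) n
  have h2 : stepLaw.map (fun U => U v) = Measure.infinitePi fun _ : ℕ => uni :=
    Measure.infinitePi_map_eval
      (fun _ : List ℕ => Measure.infinitePi fun _ : ℕ => uni) v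
  rw [← h1, ← h2] at hu
  have h3 := ae_of_ae_map (measurable_pi_apply n).aemeasurable hu
  exact ae_of_ae_map (measurable_pi_apply v).aemeasurable h3

theorem move_eq (e : List ℕ → Bool) (x : List ℕ) {u : ℝ} (hu : u < 1) :
    move e x u = stp e x (dis u) := by
  have hfl : ∀ n : ℕ, 0 < n → ⌊u * (n : ℝ)⌋₊ % n = ⌊u * (n : ℝ)⌋₊ := fun n hn =>
    Nat.mod_eq_of_lt (floor_lt_of_lt_one _ hu n hn)
  have h2 := hfl 2 (by norm_num)
  have h3 := hfl 3 (by norm_num)
  have h5 := hfl 5 (by norm_num)
  have h6 := hfl 6 (by norm_num)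
  cases x with
  | nil =>
    cases he : e []
    · simp only [move, kids, stp, rch, dis, Fin.ofNat, he, Bool.false_eq_true, if_false, if_true]
      push_cast at h5 ⊢
      rw [h5]
    · simp only [move, kids, stp, rch, dis, Fin.ofNat, he, if_true]
      push_cast at h2 ⊢
      rw [h2]
  | cons a y =>
    have key : ∀ (j : ℕ) (k : ℕ), j = k → (match j with | 0 => y | j + 1 => j :: a :: y) =
        if k = 0 then (a :: y).tail else (k - 1) :: a :: y := by
      rintro j _ rfl
      cases j <;> simp
    unfold move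
    simp only [stp]
    rw [if_neg (by simp)]
    apply key
    cases he : e (a :: y)
    · simp only [kids, ich, dis, Fin.ofNat, Bool.false_eq_true, if_false]
      push_cast at h6 ⊢
      rw [h6]
    · simp only [kids, ich, dis, Fin.ofNat, if_true]
      push_cast at h3 ⊢
      rw [h3]

theorem frog_eq (e : List ℕ → Bool) {U : List ℕ → ℕ → ℝ} (hU : ∀ v n, U v n < 1)
    (v : List ℕ) (n : ℕ) : frog e U v n = Xw e v n (fun n => dis (U v n)) := by
  induction n with
  | zero => rfl
  | succ n ih =>
    rw [frog, Xw, ih, move_eq e _ (hU v n)]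

theorem wakes_of_rch (e : List ℕ → Bool) {U : List ℕ → ℕ → ℝ} (hU : ∀ v n, U v n < 1)
    {w : List ℕ} (hw : Rch e (fun v n => dis (U v n)) w) : Wakes e U w := by
  induction hw with
  | refl => exact Wakes.root
  | tail _ h ih =>
    obtain ⟨m, hm⟩ := h
    rw [← hm, ← frog_eq e hU]
    exact Wakes.step _ m ih

end

/-- **Theorem.** For all `p` close to `1` (and in particular for some `p < 1`), for almost every
tree, almost surely the root is visited by infinitely many different frogs which wake up. -/
theorem result : ∃ p₀ : ℝ, 0 ≤ p₀ ∧ p₀ < 1 ∧ ∀ p : ℝ, p₀ ≤ p → p ≤ 1 →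
    ∀ᵐ e ∂(treeLaw p), ∀ᵐ U ∂stepLaw,
      {v : List ℕ | Wakes e U v ∧ ∃ n, frog e U v n = []}.Infinite := by
  obtain ⟨p₀, h0, h1, hlim⟩ := Pool.Agent.Work.MP_9e3593_pr.analytic_strong
  refine ⟨p₀, h0, h1, fun p hp hp1 => ?_⟩
  have hinf := Pool.Agent.Work.MP_9e3593_pr.Fr.RS_infinite (h0.trans hp) hp1
    (s := 1 / 18) (by norm_num) (by norm_num) (hlim p hp hp1)
  have h2 := Measure.ae_ae_of_ae_prod hinf
  have hm : Measurable (fun (U : List ℕ → ℕ → ℝ) (v : List ℕ) (n : ℕ) =>
      Pool.Agent.Work.MP_9e3593_pr.Fr.dis (U v n)) :=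
    measurable_pi_lambda _ fun v => measurable_pi_lambda _ fun n =>
      Pool.Agent.Work.MP_9e3593_pr.Fr.measurable_dis.comp
        ((measurable_pi_apply n).comp (measurable_pi_apply v))
  have h3 : ∀ᵐ e ∂(treeLaw p), ∀ᵐ σ ∂Pool.Agent.Work.MP_9e3593_pr.Fr.QS,
      (Pool.Agent.Work.MP_9e3593_pr.Fr.RS (e, σ)).Infinite := h2
  filter_upwards [h3] with e he
  rw [← stepLaw_map] at he
  have h4 := ae_of_ae_map hm.aemeasurable he
  filter_upwards [h4, ae_lt_one] with U hU hU1
  refine hU.mono ?_
  rintro v ⟨hv, m, hvm⟩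
  refine ⟨wakes_of_rch e hU1 hv, m, ?_⟩
  rw [frog_eq e hU1]
  exact hvm

end Pool.Agent.Results.MP_9e3593_pr.RecurrentNearOne
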